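import Mathlib

/-!
Near branch lemma for families of leaves over the doubling map.

A one-sided family of continuous leaves, over any orbit of the base map `t ↦ 2 t`, with at most
double exponential growth of rate `31/20`, is bounded by `30`, satisfies `|cos V| < 1/2` whenever
`|cos| ≤ 0.0977`, and lies in the near half plane `Re (2 cos V) < 1` over `[1/4, 4/15]`.
-/

set_option autoImplicit false

open Set

namespace Pool.Agent.W_4481e3_h1

/-- one-sided family of leaves over an orbit of the doubling map, on growing windows -/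
structure Fam (e : ℂ) (ρ A : ℝ) (b : ℕ → ℝ) (V : ℕ → ℝ → ℂ) : Prop where
  base : ∀ k, ∃ z : ℤ, b (k + 1) = 2 * b k + z
  cont : ∀ k, ContinuousOn (V k) (Icc (-(ρ * 2 ^ k)) (ρ * 2 ^ k))
  recur : ∀ k t, |t| ≤ ρ * 2 ^ k → V (k + 1) (2 * t) =
    V k t + (Real.cos (2 * Real.pi * (b k + t)) : ℂ) * (e - V k t ^ 2)
  growth : ∀ k t, |t| ≤ ρ * 2 ^ k → ‖V k t‖ ≤ Real.exp (A * (31 / 20) ^ k)

variable {e : ℂ} {ρ A : ℝ} {b : ℕ → ℝ} {V : ℕ → ℝ → ℂ}

/-- the cosine at the point `t` of the window of time `k` -/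
noncomputable def cs (b : ℕ → ℝ) (k : ℕ) (t : ℝ) : ℝ := Real.cos (2 * Real.pi * (b k + t))

/-- inside the window with margin `1/2` -/
def Dm (ρ : ℝ) (k : ℕ) (t : ℝ) : Prop := |t| + 1 / 2 ≤ ρ * 2 ^ k

/-- inside the window with margin `1/4` -/
def Ok (ρ : ℝ) (k : ℕ) (t : ℝ) : Prop := |t| + 1 / 4 ≤ ρ * 2 ^ k

lemma Dm.ok {k : ℕ} {t : ℝ} (h : Dm ρ k t) : Ok ρ k t := by
  unfold Dm at h; unfold Ok; linarith

lemma Dm.near {k : ℕ} {t t' : ℝ} (h : Dm ρ k t) (ht : |t' - t| ≤ 1 / 4) : Ok ρ k t' := by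
  unfold Dm at h; unfold Ok
  have : |t'| ≤ |t| + |t' - t| := by
    have := abs_add_le t (t' - t)
    rwa [add_sub_cancel] at this
  linarith

lemma Ok.succ {k : ℕ} {t : ℝ} (h : Ok ρ k t) : Dm ρ (k + 1) (2 * t) := by
  unfold Ok at h; unfold Dm
  rw [abs_mul, abs_two, pow_succ]
  linarith

lemma Dm.succ {k : ℕ} {t : ℝ} (h : Dm ρ k t) : Dm ρ (k + 1) (2 * t) := h.ok.succ

lemma Ok.mem {k : ℕ} {t : ℝ} (h : Ok ρ k t) : |t| ≤ ρ * 2 ^ k := by
  unfold Ok at h; linarith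

lemma Fam.cs_succ (hV : Fam e ρ A b V) (k : ℕ) (t : ℝ) :
    cs b (k + 1) (2 * t) = 2 * cs b k t ^ 2 - 1 := by
  obtain ⟨z, hz⟩ := hV.base k
  unfold cs
  rw [hz, ← Real.cos_two_mul]
  have : 2 * Real.pi * (2 * b k + z + 2 * t) = 2 * (2 * Real.pi * (b k + t)) + z * (2 * Real.pi) := by
    ring
  rw [this, Real.cos_add_int_mul_two_pi]

lemma abs_cs_le (k : ℕ) (t : ℝ) : |cs b k t| ≤ 1 := Real.abs_cos_le_one _

lemma Fam.abs_cs_succ (hV : Fam e ρ A b V) (k : ℕ) (t : ℝ) :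
    1 - 2 * |cs b k t| ^ 2 ≤ |cs b (k + 1) (2 * t)| ∧
      2 * |cs b k t| ^ 2 - 1 ≤ |cs b (k + 1) (2 * t)| := by
  rw [hV.cs_succ, sq_abs]
  constructor
  · rw [← abs_neg]
    refine le_trans (le_of_eq ?_) (le_abs_self _)
    ring
  · exact le_abs_self _

/-- lower bounds for one step -/
lemma step_lower (he : ‖e‖ ≤ 1 / 4) (c : ℝ) (Z : ℂ) :
    |c| * (‖Z‖ ^ 2 - 1 / 4) - ‖Z‖ ≤ ‖Z + (c : ℂ) * (e - Z ^ 2)‖ ∧
      ‖Z‖ - |c| * (‖Z‖ ^ 2 + 1 / 4) ≤ ‖Z + (c : ℂ) * (e - Z ^ 2)‖ := by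
  have h1 : ‖(c : ℂ)‖ = |c| := by rw [Complex.norm_real, Real.norm_eq_abs]
  have hc : 0 ≤ |c| := abs_nonneg c
  have h2 : ‖Z ^ 2‖ = ‖Z‖ ^ 2 := norm_pow _ _
  have h3 : ‖(c : ℂ) * (e - Z ^ 2)‖ ≤ |c| * (‖Z‖ ^ 2 + 1 / 4) := by
    rw [norm_mul, h1]
    have : ‖e - Z ^ 2‖ ≤ ‖Z‖ ^ 2 + 1 / 4 := by
      refine (norm_sub_le _ _).trans ?_
      rw [h2]; linarith
    gcongr
  have h4 : |c| * (‖Z‖ ^ 2 - 1 / 4) ≤ ‖(c : ℂ) * (e - Z ^ 2)‖ := by
    rw [norm_mul, h1]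
    have : ‖Z‖ ^ 2 - 1 / 4 ≤ ‖e - Z ^ 2‖ := by
      have h5 := norm_sub_norm_le (Z ^ 2) e
      rw [norm_sub_rev, h2] at h5
      linarith
    gcongr
  constructor
  · have h6 := norm_sub_norm_le ((c : ℂ) * (e - Z ^ 2)) (-Z)
    rw [norm_neg, sub_neg_eq_add, add_comm] at h6
    linarith
  · have h6 := norm_sub_norm_le Z (-((c : ℂ) * (e - Z ^ 2)))
    rw [norm_neg, sub_neg_eq_add] at h6
    linarith

lemma Fam.lower (hV : Fam e ρ A b V) (he : ‖e‖ ≤ 1 / 4) {k : ℕ} {t : ℝ} (h : Ok ρ k t) :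
    |cs b k t| * (‖V k t‖ ^ 2 - 1 / 4) - ‖V k t‖ ≤ ‖V (k + 1) (2 * t)‖ ∧
      ‖V k t‖ - |cs b k t| * (‖V k t‖ ^ 2 + 1 / 4) ≤ ‖V (k + 1) (2 * t)‖ := by
  rw [hV.recur k t h.mem]
  exact step_lower he _ _

/-- the nearest zero of the cosine: moving towards it decreases `|cos|` -/
lemma exists_move (θ : ℝ) : ∃ φ : ℝ, |φ| ≤ Real.pi / 2 ∧ ∃ s : ℤ, θ = Real.pi / 2 + s * Real.pi + φ := by
  refine ⟨θ - Real.pi / 2 - round ((θ - Real.pi / 2) / Real.pi) * Real.pi, ?_,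
    round ((θ - Real.pi / 2) / Real.pi), by ring⟩
  have hp := Real.pi_pos
  have h := abs_sub_round ((θ - Real.pi / 2) / Real.pi)
  have h2 : θ - Real.pi / 2 - round ((θ - Real.pi / 2) / Real.pi) * Real.pi =
      ((θ - Real.pi / 2) / Real.pi - round ((θ - Real.pi / 2) / Real.pi)) * Real.pi := by
    field_simp
  rw [h2, abs_mul, abs_of_pos hp]
  nlinarith

lemma abs_cos_shift (s : ℤ) (φ : ℝ) : |Real.cos (Real.pi / 2 + s * Real.pi + φ)| = |Real.sin φ| := by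
  have h : Real.pi / 2 + s * Real.pi + φ = (φ + Real.pi / 2) + s * Real.pi := by ring
  rw [h, Real.cos_add_int_mul_pi, Real.cos_add_pi_div_two]
  rw [abs_mul, abs_neg]
  have : |((-1 : ℝ) ^ s)| = 1 := by
    rw [abs_zpow, abs_neg, abs_one, one_zpow]
  rw [this, one_mul]

/-- crossing: if `|cos V| ≥ 1/2` there is a point towards the quarter point with equality -/
lemma Fam.cross (hV : Fam e ρ A b V) {k : ℕ} {t : ℝ} (h : Dm ρ k t)
    (hc : 1 / 2 ≤ |cs b k t| * ‖V k t‖) :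
    ∃ t', |t' - t| ≤ 1 / 4 ∧ |cs b k t'| ≤ |cs b k t| ∧ |cs b k t'| * ‖V k t'‖ = 1 / 2 := by
  obtain ⟨φ, hφ, s, hs⟩ := exists_move (2 * Real.pi * (b k + t))
  have hp := Real.pi_pos
  -- the path
  set g : ℝ → ℝ := fun r => t - (1 - r) * φ / (2 * Real.pi) with hg
  have hgc : Continuous g := by rw [hg]; fun_prop
  have hcs : ∀ r, |cs b k (g r)| = |Real.sin (r * φ)| := by
    intro r
    unfold cs
    have : 2 * Real.pi * (b k + g r) = Real.pi / 2 + s * Real.pi + r * φ := by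
      have h1 : 2 * Real.pi * (b k + g r) = 2 * Real.pi * (b k + t) - (1 - r) * φ := by
        rw [hg]; field_simp; ring
      rw [h1, hs]; ring
    rw [this, abs_cos_shift]
  have hdist : ∀ r ∈ Icc (0:ℝ) 1, |g r - t| ≤ 1 / 4 := by
    intro r hr
    have h1 : g r - t = -((1 - r) * φ / (2 * Real.pi)) := by rw [hg]; ring
    rw [h1, abs_neg, abs_div, abs_mul, abs_of_pos (by positivity : (0:ℝ) < 2 * Real.pi),
      abs_of_nonneg (by linarith [hr.2] : 0 ≤ 1 - r), div_le_iff₀ (by positivity)]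
    have h2 : (1 - r) * |φ| ≤ 1 * (Real.pi / 2) := by
      apply mul_le_mul (by linarith [hr.1]) hφ (abs_nonneg _) (by norm_num)
    linarith
  have hmem : ∀ r ∈ Icc (0:ℝ) 1, g r ∈ Icc (-(ρ * 2 ^ k)) (ρ * 2 ^ k) := by
    intro r hr
    have := (h.near (hdist r hr)).mem
    exact abs_le.1 this
  have hcont : ContinuousOn (fun r => |Real.sin (r * φ)| * ‖V k (g r)‖) (Icc (0:ℝ) 1) := by
    apply ContinuousOn.mul
    · exact (Continuous.abs (Real.continuous_sin.comp (by fun_prop))).continuousOn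
    · exact ((hV.cont k).comp hgc.continuousOn hmem).norm
  have hivt := intermediate_value_Icc (by norm_num : (0:ℝ) ≤ 1) hcont
  have hg1 : g 1 = t := by rw [hg]; simp
  have h1 : 1 / 2 ≤ (fun r => |Real.sin (r * φ)| * ‖V k (g r)‖) 1 := by
    show 1 / 2 ≤ |Real.sin (1 * φ)| * ‖V k (g 1)‖
    rw [← hcs 1, hg1]; exact hc
  obtain ⟨r, hr, hr2⟩ := hivt ⟨by simp, h1⟩
  refine ⟨g r, hdist r hr, ?_, ?_⟩
  · rw [hcs r]
    have h2 : |cs b k t| = |Real.sin φ| := by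
      have := hcs 1
      rwa [hg1, one_mul] at this
    rw [h2]
    have h3 : ∀ x : ℝ, |x| ≤ Real.pi / 2 → |Real.sin x| = Real.sin |x| := by
      intro x hx
      rcases le_total 0 x with h | h
      · rw [abs_of_nonneg h] at hx ⊢
        rw [abs_of_nonneg (Real.sin_nonneg_of_nonneg_of_le_pi h (by linarith))]
      · rw [abs_of_nonpos h] at hx ⊢
        rw [Real.sin_neg, abs_of_nonpos (Real.sin_nonpos_of_nonpos_of_neg_pi_le h (by linarith))]
    have h4 : |r * φ| ≤ |φ| := by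
      rw [abs_mul, abs_of_nonneg hr.1]
      nlinarith only [hr, abs_nonneg φ, hr.2]
    rw [h3 _ (h4.trans hφ), h3 _ hφ]
    exact Real.sin_le_sin_of_le_of_le_pi_div_two (by linarith [abs_nonneg (r * φ)]) hφ h4
  · have := hr2
    simp only at this
    rw [hcs r]; exact this

/-- four steps after a crossing -/
lemma Fam.chain (hV : Fam e ρ A b V) (he : ‖e‖ ≤ 1 / 4) {k : ℕ} {t : ℝ} (h : Ok ρ k t)
    (hc : |cs b k t| ≤ 977 / 10000) (hcr : |cs b k t| * ‖V k t‖ = 1 / 2) :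
    30 ≤ ‖V (k + 4) (2 * (2 * (2 * (2 * t))))‖ ∧
      3 ≤ |cs b k t| * ‖V (k + 4) (2 * (2 * (2 * (2 * t))))‖ := by
  have d1 := h.succ
  have d2 := d1.succ
  have d3 := d2.succ
  obtain ⟨-, s0⟩ := hV.lower he h
  obtain ⟨s1, -⟩ := hV.lower he d1.ok
  obtain ⟨s2, -⟩ := hV.lower he d2.ok
  obtain ⟨s3, -⟩ := hV.lower he d3.ok
  obtain ⟨c1, -⟩ := hV.abs_cs_succ k t
  obtain ⟨-, c2⟩ := hV.abs_cs_succ (k + 1) (2 * t)
  obtain ⟨-, c3⟩ := hV.abs_cs_succ (k + 1 + 1) (2 * (2 * t))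
  have e4 : k + 4 = k + 1 + 1 + 1 + 1 := rfl
  rw [e4]
  set C0 := |cs b k t| with hC0
  set C1 := |cs b (k + 1) (2 * t)| with hC1
  set C2 := |cs b (k + 1 + 1) (2 * (2 * t))| with hC2
  set C3 := |cs b (k + 1 + 1 + 1) (2 * (2 * (2 * t)))| with hC3
  set N0 := ‖V k t‖ with hN0
  set N1 := ‖V (k + 1) (2 * t)‖ with hN1
  set N2 := ‖V (k + 1 + 1) (2 * (2 * t))‖ with hN2
  set N3 := ‖V (k + 1 + 1 + 1) (2 * (2 * (2 * t)))‖ with hN3
  set N4 := ‖V (k + 1 + 1 + 1 + 1) (2 * (2 * (2 * (2 * t))))‖ with hN4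
  have hC0n : 0 ≤ C0 := abs_nonneg _
  have hC0p : 0 < C0 := by
    rcases hC0n.lt_or_eq with h | h
    · exact h
    · rw [← h, zero_mul] at hcr; norm_num at hcr
  -- `N1 ≥ (1 - C0 ^ 2) / (4 C0)`
  have e1 : C0 * N1 ≥ 1 / 4 - C0 ^ 2 / 4 := by
    have := mul_le_mul_of_nonneg_left s0 hC0n
    nlinarith only [this, hcr]
  have hN1 : 2534 / 1000 ≤ N1 := by
    by_contra hlt
    push Not at hlt
    have h1 : C0 * N1 ≤ C0 * (2534 / 1000) := by gcongr
    nlinarith only [hc, hC0p, e1, h1, hC0n]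
  have hC1' : 98 / 100 + 9 / 10000 ≤ C1 := by nlinarith only [hc, c1, hC0p, hC0n]
  have hN2 : 1388 / 1000 * N1 ≤ N2 := by
    have h1 : (98 / 100 + 9 / 10000) * (N1 ^ 2 - 1 / 4) ≤ C1 * (N1 ^ 2 - 1 / 4) := by
      apply mul_le_mul_of_nonneg_right hC1'
      nlinarith only [hc, e1, hC0n, hN1, hC0p]
    nlinarith only [hc, s1, e1, hN1, h1, hC0n]
  have hN2' : 3517 / 1000 ≤ N2 := by linarith
  have hC2' : 924 / 1000 ≤ C2 := by nlinarith only [hc, c1, c2, hC0n, hC0p, hC1']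
  have hN3 : 2175 / 1000 * N2 ≤ N3 := by
    have h1 : (924 / 1000) * (N2 ^ 2 - 1 / 4) ≤ C2 * (N2 ^ 2 - 1 / 4) := by
      apply mul_le_mul_of_nonneg_right hC2'
      nlinarith only [hc, e1, hN1, hN2, hC0n, hC0p]
    nlinarith only [hc, s2, e1, hN2, h1, hC0n, hN1, hC0p]
  have hN3' : 7649 / 1000 ≤ N3 := by linarith
  have hC3' : 707 / 1000 ≤ C3 := by nlinarith only [c2, c3, hC1', hC2']
  have hN4 : 43 / 10 * N3 ≤ N4 := by
    have h1 : (707 / 1000) * (N3 ^ 2 - 1 / 4) ≤ C3 * (N3 ^ 2 - 1 / 4) := by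
      apply mul_le_mul_of_nonneg_right hC3'
      nlinarith only [hc, e1, hN2, hN3, hC0n, hN1, hC0p]
    nlinarith only [hc, s3, e1, hN2, hN3, h1, hC0n, hN1, hC0p]
  refine ⟨by linarith, ?_⟩
  have h5 : 1298 / 100 * N1 ≤ N4 := by linarith
  have h6 : C0 * (1298 / 100 * N1) ≤ C0 * N4 := by gcongr
  nlinarith only [hc, hC0p, e1, h6, hC0n]

/-- a large value is followed by a larger one -/
lemma Fam.bigger (hV : Fam e ρ A b V) (he : ‖e‖ ≤ 1 / 4) {k : ℕ} {t : ℝ} (h : Dm ρ k t)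
    (hN : 30 ≤ ‖V k t‖) : ∃ k' t', Dm ρ k' t' ∧ 6 / 5 * ‖V k t‖ ≤ ‖V k' t'‖ := by
  obtain ⟨s0, s0'⟩ := hV.lower he h.ok
  obtain ⟨s1, -⟩ := hV.lower he h.succ.ok
  obtain ⟨c1, -⟩ := hV.abs_cs_succ k t
  have hC1 := abs_cs_le (b := b) k t
  have hC0 : 0 ≤ |cs b k t| := abs_nonneg _
  by_cases h1 : |cs b k t| * ‖V k t‖ < 1 / 2
  · refine ⟨k + 1 + 1, 2 * (2 * t), h.succ.succ, ?_⟩
    set C0 := |cs b k t|
    set C1 := |cs b (k + 1) (2 * t)|
    set N0 := ‖V k t‖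
    set N1 := ‖V (k + 1) (2 * t)‖
    have hC : C0 ≤ 1 / 60 := by
      by_contra hlt
      push Not at hlt
      nlinarith only [h1, hlt, hC0, hN]
    have hN1 : 49 / 100 * N0 ≤ N1 := by nlinarith only [hN, h1, s0', hC0]
    have hC1' : 999 / 1000 ≤ C1 := by nlinarith only [c1, h1, hN, hC1, hC0]
    have h2 : (999 / 1000) * (N1 ^ 2 - 1 / 4) ≤ C1 * (N1 ^ 2 - 1 / 4) := by
      apply mul_le_mul_of_nonneg_right hC1'
      nlinarith only [hN, h1, s0', hC1, s0, hN1]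
    nlinarith only [hC0, hN, h1, s1, s0', h2, hC1, s0, hN1]
  push Not at h1
  by_cases h2 : |cs b k t| * ‖V k t‖ ≤ 5 / 4
  · obtain ⟨t', ht', hct', hcr⟩ := hV.cross h h1
    have hC : |cs b k t| ≤ 1 / 24 := by
      by_contra hlt
      push Not at hlt
      nlinarith only [h2, hlt, hN, hC0]
    obtain ⟨-, h4⟩ := hV.chain he (h.near ht') (hct'.trans (hC.trans (by norm_num))) hcr
    refine ⟨k + 4, _, (h.near ht').succ.succ.succ.succ, ?_⟩
    set N4 := ‖V (k + 4) (2 * (2 * (2 * (2 * t'))))‖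
    have h5 : 3 ≤ |cs b k t| * N4 := h4.trans (by gcongr)
    by_contra hlt
    push Not at hlt
    have h6 : |cs b k t| * N4 ≤ |cs b k t| * (6 / 5 * ‖V k t‖) := by gcongr
    nlinarith only [h2, h5, h6]
  push Not at h2
  by_cases h3 : |cs b k t| * ‖V k t‖ ≤ 3
  · refine ⟨k + 1 + 1, 2 * (2 * t), h.succ.succ, ?_⟩
    set C0 := |cs b k t|
    set C1 := |cs b (k + 1) (2 * t)|
    set N0 := ‖V k t‖
    set N1 := ‖V (k + 1) (2 * t)‖
    have hC : C0 ≤ 1 / 10 := by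
      by_contra hlt
      push Not at hlt
      nlinarith only [h3, hlt, hC0, hN]
    have hN1 : 249 / 1000 * N0 ≤ N1 := by nlinarith only [hC1, h2, s0, hC, hN, h1]
    have hC1' : 98 / 100 ≤ C1 := by nlinarith only [c1, hC, hN, hC0, h3]
    have h2 : (98 / 100) * (N1 ^ 2 - 1 / 4) ≤ C1 * (N1 ^ 2 - 1 / 4) := by
      apply mul_le_mul_of_nonneg_right hC1'
      nlinarith only [hC1, h2, s0, hN, h1, hN1, h3, s0']
    nlinarith only [h2, s1, s0, hC, hC1, hN, h1, hN1, h3, s0']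
  · push Not at h3
    refine ⟨k + 1, 2 * t, h.succ, ?_⟩
    nlinarith only [s0, h3, hN, hC0, h2]

/-- a huge value grows at rate `8/5` -/
lemma Fam.rate (hV : Fam e ρ A b V) (he : ‖e‖ ≤ 1 / 4) {k : ℕ} {t y : ℝ} (h : Dm ρ k t)
    (hy : 11 ≤ y) (hN : Real.exp y ≤ ‖V k t‖) :
    ∃ j t', 0 < j ∧ Dm ρ (k + j) t' ∧ Real.exp ((8 / 5) ^ j * y) ≤ ‖V (k + j) t'‖ := by
  have he1 : (27 / 10 : ℝ) ≤ Real.exp 1 := by
    have := Real.exp_one_gt_d9
    linarith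
  have he4 : (53 : ℝ) ≤ Real.exp 4 := by
    have : Real.exp 4 = Real.exp 1 ^ 4 := by rw [← Real.exp_nat_mul]; norm_num
    rw [this]
    have h2 : (27 / 10 : ℝ) ^ 4 ≤ Real.exp 1 ^ 4 := by gcongr
    have h3 : (53 : ℝ) ≤ (27 / 10 : ℝ) ^ 4 := by norm_num
    linarith
  have he3 : (13 : ℝ) ≤ Real.exp 3 := by
    have : Real.exp 3 = Real.exp 1 ^ 3 := by rw [← Real.exp_nat_mul]; norm_num
    rw [this]
    have h2 : (27 / 10 : ℝ) ^ 3 ≤ Real.exp 1 ^ 3 := by gcongr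
    have h3 : (13 : ℝ) ≤ (27 / 10 : ℝ) ^ 3 := by norm_num
    linarith
  have hbig : (2000 : ℝ) ≤ ‖V k t‖ := by
    refine le_trans ?_ hN
    have h1 : Real.exp 8 ≤ Real.exp y := Real.exp_le_exp.2 (by linarith)
    have h2 : Real.exp 8 = Real.exp 4 * Real.exp 4 := by rw [← Real.exp_add]; norm_num
    nlinarith
  obtain ⟨s0, s0'⟩ := hV.lower he h.ok
  have hC1 := abs_cs_le (b := b) k t
  have hC0 : 0 ≤ |cs b k t| := abs_nonneg _
  by_cases h1 : 1 / 40 ≤ |cs b k t|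
  · refine ⟨1, 2 * t, one_pos, h.succ, ?_⟩
    have h2 : ‖V k t‖ ^ 2 / 41 ≤ ‖V (k + 1) (2 * t)‖ := by
      set N0 := ‖V k t‖
      have h3 : 1 / 40 * (N0 ^ 2 - 1 / 4) ≤ |cs b k t| * (N0 ^ 2 - 1 / 4) := by
        apply mul_le_mul_of_nonneg_right h1
        nlinarith only [hbig]
      nlinarith only [hbig, s0, h3]
    refine le_trans ?_ h2
    have h3 : Real.exp y ^ 2 ≤ ‖V k t‖ ^ 2 := by gcongr
    have h4 : Real.exp y ^ 2 = Real.exp (2 / 5 * y) * Real.exp ((8 / 5) ^ 1 * y) := by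
      rw [← Real.exp_nat_mul, ← Real.exp_add]; congr 1; push_cast; ring
    have h5 : (53 : ℝ) ≤ Real.exp (2 / 5 * y) := he4.trans (Real.exp_le_exp.2 (by linarith))
    have h6 := Real.exp_pos ((8 / 5 : ℝ) ^ 1 * y)
    rw [le_div_iff₀ (by norm_num)]
    nlinarith only [hbig, h3, h4, h5, h6]
  · push Not at h1
    -- find the point
    obtain ⟨t', ht', hct', hN'⟩ : ∃ t', |t' - t| ≤ 1 / 4 ∧ |cs b k t'| ≤ 1 / 40 ∧
        Real.exp (y - 3) ≤ ‖V (k + 1) (2 * t')‖ := by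
      have hexp : Real.exp (y - 3) * 13 ≤ ‖V k t‖ := by
        have h2 : Real.exp (y - 3) * Real.exp 3 = Real.exp y := by rw [← Real.exp_add]; congr 1; ring
        have h3 := Real.exp_pos (y - 3)
        nlinarith only [hN, h2, he3, h3]
      by_cases h2 : |cs b k t| * ‖V k t‖ < 1 / 2
      · refine ⟨t, by simp, h1.le, ?_⟩
        nlinarith only [hbig, s0', h1, hexp, h2]
      push Not at h2
      by_cases h3 : |cs b k t| * ‖V k t‖ ≤ 3
      · obtain ⟨t', ht', hct', hcr⟩ := hV.cross h h2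
        refine ⟨t', ht', hct'.trans h1.le, ?_⟩
        obtain ⟨-, s1⟩ := hV.lower he (h.near ht')
        have hC0' : 0 ≤ |cs b k t'| := abs_nonneg _
        set C' := |cs b k t'|
        set N' := ‖V k t'‖
        set C0 := |cs b k t|
        set N0 := ‖V k t‖
        have hC'pos : 0 < C' := by
          rcases hC0'.lt_or_eq with h | h
          · exact h
          · rw [← h, zero_mul] at hcr; norm_num at hcr
        have h6 : N0 ≤ 6 * N' := by
          have h7 : C' * N0 ≤ C' * (6 * N') := by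
            have : C' * N0 ≤ C0 * N0 := by
              apply mul_le_mul_of_nonneg_right hct'
              exact norm_nonneg _
            nlinarith only [hcr, h3, this]
          exact le_of_mul_le_mul_left h7 hC'pos
        nlinarith only [hcr, hC'pos, hC0', s1, h1, hct', hbig, hexp, h6]
      · push Not at h3
        refine ⟨t, by simp, h1.le, ?_⟩
        nlinarith only [s0, hC1, hexp, h3, hbig, h2]
    have d0 := h.near ht'
    have d1 := d0.succ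
    have d2 := d1.succ
    have d3 := d2.succ
    have d4 := d3.succ
    have d5 := d4.succ
    have d6 := d5.succ
    refine ⟨6, 2 * (2 * (2 * (2 * (2 * (2 * t'))))), by norm_num, d6, ?_⟩
    obtain ⟨c1, -⟩ := hV.abs_cs_succ k t'
    obtain ⟨-, c2⟩ := hV.abs_cs_succ (k + 1) (2 * t')
    obtain ⟨-, c3⟩ := hV.abs_cs_succ (k + 1 + 1) (2 * (2 * t'))
    obtain ⟨-, c4⟩ := hV.abs_cs_succ (k + 1 + 1 + 1) (2 * (2 * (2 * t')))
    obtain ⟨-, c5⟩ := hV.abs_cs_succ (k + 1 + 1 + 1 + 1) (2 * (2 * (2 * (2 * t'))))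
    have hCn : 0 ≤ |cs b k t'| := abs_nonneg _
    have g1 : 998 / 1000 ≤ |cs b (k + 1) (2 * t')| := by nlinarith only [hct', c1, hCn]
    have g2 : 99 / 100 ≤ |cs b (k + 1 + 1) (2 * (2 * t'))| := by nlinarith only [hct', c1, c2, hCn, g1]
    have g3 : 96 / 100 ≤ |cs b (k + 1 + 1 + 1) (2 * (2 * (2 * t')))| := by nlinarith only [c3, g2]
    have g4 : 84 / 100 ≤ |cs b (k + 1 + 1 + 1 + 1) (2 * (2 * (2 * (2 * t'))))| := by nlinarith only [c3, c4, g2, g3]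
    have g5 : 41 / 100 ≤ |cs b (k + 1 + 1 + 1 + 1 + 1) (2 * (2 * (2 * (2 * (2 * t')))))| := by
      nlinarith only [c3, c4, c5, g2, g3, g4]
    -- one doubling step
    have hstep : ∀ (m : ℕ) (τ x : ℝ), Dm ρ m τ → 41 / 100 ≤ |cs b m τ| → 8 ≤ x →
        Real.exp x ≤ ‖V m τ‖ → Real.exp (2 * x - 1) ≤ ‖V (m + 1) (2 * τ)‖ := by
      intro m τ x hd hc hx hV'
      obtain ⟨q1, -⟩ := hV.lower he hd.ok
      have h8 : Real.exp 8 = Real.exp 4 * Real.exp 4 := by rw [← Real.exp_add]; norm_num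
      have h8' : Real.exp 8 ≤ Real.exp x := Real.exp_le_exp.2 hx
      have hb' : (2000 : ℝ) ≤ Real.exp x := by nlinarith only [he4, h8, h8']
      set N := ‖V m τ‖
      have h9 : 41 / 100 * (N ^ 2 - 1 / 4) ≤ |cs b m τ| * (N ^ 2 - 1 / 4) := by
        apply mul_le_mul_of_nonneg_right hc
        nlinarith only [he4, h8, h8', hV', hb']
      have h10 : 4 / 10 * N ^ 2 ≤ ‖V (m + 1) (2 * τ)‖ := by nlinarith only [he4, h8, h8', hb', hV', q1, h9]
      refine le_trans ?_ h10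
      have h11 : Real.exp (2 * x - 1) * Real.exp 1 = Real.exp x ^ 2 := by
        rw [← Real.exp_add, ← Real.exp_nat_mul]; congr 1; push_cast; ring
      have h12 : Real.exp x ^ 2 ≤ N ^ 2 := by gcongr
      have h13 := Real.exp_pos (2 * x - 1)
      nlinarith only [h11, h12, h13, he1]
    have q1 := hstep _ _ _ d1 (by linarith) (by linarith) hN'
    have q2 := hstep _ _ _ d2 (by linarith) (by linarith) q1
    have q3 := hstep _ _ _ d3 (by linarith) (by linarith) q2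
    have q4 := hstep _ _ _ d4 (by linarith) (by linarith) q3
    have q5 := hstep _ _ _ d5 g5 (by linarith) q4
    refine le_trans (Real.exp_le_exp.2 ?_) q5
    norm_num
    linarith

/-- the first uniform bound -/
lemma Fam.bd11 (hV : Fam e ρ A b V) (he : ‖e‖ ≤ 1 / 4) {k : ℕ} {t : ℝ} (h : Dm ρ k t) :
    ‖V k t‖ < Real.exp 11 := by
  by_contra hcon
  push Not at hcon
  have key : ∀ n : ℕ, ∃ j t', n ≤ j ∧ Dm ρ (k + j) t' ∧
      Real.exp ((8 / 5) ^ j * 11) ≤ ‖V (k + j) t'‖ := by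
    intro n
    induction n with
    | zero => exact ⟨0, t, le_rfl, h, by simpa using hcon⟩
    | succ n ih =>
      obtain ⟨j, t', hj, hd, hb⟩ := ih
      have h11 : (11:ℝ) ≤ (8 / 5) ^ j * 11 := by
        have : (1:ℝ) ≤ (8 / 5) ^ j := one_le_pow₀ (by norm_num)
        linarith
      obtain ⟨i, t'', hi, hd', hb'⟩ := hV.rate he hd h11 hb
      refine ⟨j + i, t'', by omega, by rw [← add_assoc]; exact hd', ?_⟩
      rw [← add_assoc]
      refine le_trans (le_of_eq ?_) hb'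
      congr 1
      rw [pow_add]; ring
  -- compare with the growth
  obtain ⟨n, hn⟩ : ∃ n : ℕ, |A| * (31 / 20) ^ k < (32 / 31) ^ n := by
    have := tendsto_pow_atTop_atTop_of_one_lt (by norm_num : (1:ℝ) < 32 / 31)
    exact (this.eventually_gt_atTop _).exists
  obtain ⟨j, t', hj, hd, hb⟩ := key n
  have h1 := hV.growth (k + j) t' hd.ok.mem
  have h2 := Real.exp_le_exp.1 (hb.trans h1)
  have h3 : A * (31 / 20) ^ (k + j) ≤ |A| * (31 / 20) ^ k * (31 / 20) ^ j := by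
    rw [pow_add, ← mul_assoc]
    gcongr
    exact le_abs_self A
  have h4 : (32 / 31 : ℝ) ^ n ≤ (32 / 31) ^ j := pow_le_pow_right₀ (by norm_num) hj
  have h5 : ((8 / 5 : ℝ)) ^ j = (32 / 31) ^ j * (31 / 20) ^ j := by
    rw [← mul_pow]; norm_num
  have h6 : (0:ℝ) < (31 / 20) ^ j := by positivity
  have h7 : |A| * (31 / 20) ^ k * (31 / 20) ^ j < (32 / 31) ^ j * (31 / 20) ^ j := by
    apply mul_lt_mul_of_pos_right _ h6
    linarith
  have h8 : (0:ℝ) < (8 / 5 : ℝ) ^ j := by positivity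
  linarith

/-- **(1)** the explicit uniform bound -/
theorem Fam.bd (hV : Fam e ρ A b V) (he : ‖e‖ ≤ 1 / 4) {k : ℕ} {t : ℝ} (h : Dm ρ k t) :
    ‖V k t‖ < 30 := by
  by_contra hcon
  push Not at hcon
  have key : ∀ n : ℕ, ∃ k' t', Dm ρ k' t' ∧ 30 * (6 / 5 : ℝ) ^ n ≤ ‖V k' t'‖ := by
    intro n
    induction n with
    | zero => exact ⟨k, t, h, by simpa using hcon⟩
    | succ n ih =>
      obtain ⟨k', t', hd, hb⟩ := ih
      have h30 : (30:ℝ) ≤ ‖V k' t'‖ := by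
        refine le_trans ?_ hb
        have : (1:ℝ) ≤ (6 / 5) ^ n := one_le_pow₀ (by norm_num)
        linarith
      obtain ⟨k'', t'', hd', hb'⟩ := hV.bigger he hd h30
      refine ⟨k'', t'', hd', le_trans ?_ hb'⟩
      rw [pow_succ]
      linarith
  obtain ⟨n, hn⟩ : ∃ n : ℕ, Real.exp 11 < (6 / 5) ^ n := by
    have := tendsto_pow_atTop_atTop_of_one_lt (by norm_num : (1:ℝ) < 6 / 5)
    exact (this.eventually_gt_atTop _).exists
  obtain ⟨k', t', hd, hb⟩ := key n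
  have h1 := hV.bd11 he hd
  have h2 : (0:ℝ) < (6 / 5 : ℝ) ^ n := by positivity
  linarith

/-- **(2)** no crossing where the cosine is small -/
theorem Fam.near_disc (hV : Fam e ρ A b V) (he : ‖e‖ ≤ 1 / 4) {k : ℕ} {t : ℝ} (h : Dm ρ k t)
    (hc : |cs b k t| ≤ 977 / 10000) : |cs b k t| * ‖V k t‖ < 1 / 2 := by
  by_contra hcon
  push Not at hcon
  obtain ⟨t', ht', hct', hcr⟩ := hV.cross h hcon
  obtain ⟨h4, -⟩ := hV.chain he (h.near ht') (hct'.trans hc) hcr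
  have := hV.bd he (h.near ht').succ.succ.succ.succ
  linarith

end Pool.Agent.W_4481e3_h1
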