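import Pool.Agent.W_4481e3_h1.NB

/-!
Near half plane over the interval `[1/4, 4/15]` of the base.
-/

set_option autoImplicit false

open Set

namespace Pool.Agent.W_4481e3_h1

variable {e : ℂ} {ρ A : ℝ} {b : ℕ → ℝ} {V : ℕ → ℝ → ℂ}

lemma norm_le_one_sub {w : ℂ} (hw : w.re ≤ 0) : ‖w‖ ≤ ‖1 - w‖ := by
  have h1 : ‖w‖ ^ 2 ≤ ‖1 - w‖ ^ 2 := by
    rw [Complex.sq_norm, Complex.sq_norm, Complex.normSq_apply, Complex.normSq_apply]
    simp only [Complex.sub_re, Complex.one_re, Complex.sub_im, Complex.one_im]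
    linarith
  exact (abs_le_abs_of_sq_le_sq h1 (norm_nonneg _))
where
  abs_le_abs_of_sq_le_sq {a b : ℝ} (h : a ^ 2 ≤ b ^ 2) (hb : 0 ≤ b) : a ≤ b := by
    nlinarith

/-- real computation of the first two steps after the critical line -/
lemma crit_two {κ p q e1 e2 : ℝ} (hκ : 0 < κ) (hκ1 : κ ≤ 10473 / 100000) (hp : -(2 * κ * p) = 1)
    (he1 : |e1| ≤ 1 / 4) (he2 : |e2| ≤ 1 / 4) (he : e1 ^ 2 + e2 ^ 2 ≤ 1 / 16)
    {X1 Y1 d a b : ℝ} (hX1 : X1 = p - κ * (e1 - (p ^ 2 - q ^ 2))) (hY1 : Y1 = q - κ * (e2 - 2 * p * q))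
    (hd : d = 1 - 2 * κ ^ 2) (ha : a = X1 - d * (e1 - (X1 ^ 2 - Y1 ^ 2)))
    (hb : b = Y1 - d * (e2 - 2 * X1 * Y1)) :
    303 / 100 ≤ a ∧ |b| ≤ a / 2 := by
  have hY : Y1 = -(κ * e2) := by
    rw [hY1]
    have : κ * (2 * p * q) = -q := by
      have : κ * (2 * p * q) = -(-(2 * κ * p)) * q := by ring
      rw [this, hp]; ring
    linear_combination this
  set x : ℝ := 1 / (4 * κ) + κ * q ^ 2 with hx
  have hX : X1 = -(x + κ * e1) := by
    have hpv : p = -(1 / (2 * κ)) := by field_simp; linarith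
    rw [hX1, hpv, hx]
    field_simp
    ring
  have hκx : κ * x = 1 / 4 + κ ^ 2 * q ^ 2 := by
    rw [hx]; field_simp
  have hm : 1 / 4 ≤ κ * x := by
    rw [hκx]
    linarith [mul_nonneg (sq_nonneg κ) (sq_nonneg q)]
  have hx1 : 2387 / 1000 ≤ x := by
    by_contra hlt
    push Not at hlt
    have : κ * x ≤ κ * (2387 / 1000) := by gcongr
    linarith
  have hmx : κ * x ≤ 10473 / 100000 * x := by
    apply mul_le_mul_of_nonneg_right hκ1; linarith
  have hκsq : κ * κ ≤ 10473 / 100000 * (10473 / 100000) := mul_le_mul hκ1 hκ1 hκ.le (by norm_num)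
  have hd0 : 978 / 1000 ≤ d := by rw [hd]; linarith
  have hd1 : d ≤ 1 := by rw [hd]; linarith [sq_nonneg κ]
  set β : ℝ := 2 * d * (κ * x) - d - κ with hβ
  have hβu : β ≤ 2095 / 10000 * x + 1048 / 10000 := by
    have : d * (κ * x) ≤ 1 * (κ * x) := by
      apply mul_le_mul_of_nonneg_right hd1; linarith
    linarith
  have hβl : -(2095 / 10000 * x + 1048 / 10000) ≤ β := by
    have : d * (1 / 4) ≤ d * (κ * x) := by
      apply mul_le_mul_of_nonneg_left hm; linarith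
    linarith
  have hβa : |β| ≤ 2095 / 10000 * x + 1048 / 10000 := abs_le.2 ⟨hβl, hβu⟩
  have he1β : |e1 * β| ≤ 1 / 4 * (2095 / 10000 * x + 1048 / 10000) := by
    rw [abs_mul]; exact mul_le_mul he1 hβa (abs_nonneg _) (by norm_num)
  have he2β : |e2 * β| ≤ 1 / 4 * (2095 / 10000 * x + 1048 / 10000) := by
    rw [abs_mul]; exact mul_le_mul he2 hβa (abs_nonneg _) (by norm_num)
  have hκ2 : κ ^ 2 ≤ 11 / 1000 := by linarith
  have ha' : a = d * x ^ 2 - x + e1 * β + d * κ ^ 2 * (e1 ^ 2 - e2 ^ 2) := by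
    rw [ha, hX, hY, hβ]; ring
  have hb' : b = e2 * β + e2 * (2 * d * κ ^ 2 * e1) := by
    rw [hb, hX, hY, hβ]; ring
  have hdκ : 0 ≤ d * κ ^ 2 ∧ d * κ ^ 2 ≤ 11 / 1000 := by
    constructor
    · positivity
    · have := mul_le_mul_of_nonneg_right hd1 (sq_nonneg κ)
      linarith
  have h3 : |d * κ ^ 2 * (e1 ^ 2 - e2 ^ 2)| ≤ 11 / 1000 * (1 / 16) := by
    rw [abs_mul, abs_of_nonneg hdκ.1]
    apply mul_le_mul hdκ.2 _ (abs_nonneg _) (by norm_num)
    rw [abs_le]; constructor <;> linarith [sq_nonneg e1, sq_nonneg e2]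
  have h4 : |e2 * (2 * d * κ ^ 2 * e1)| ≤ 1 / 100 := by
    have h5 : |2 * d * κ ^ 2 * e1| ≤ 22 / 1000 * (1 / 4) := by
      rw [abs_mul, abs_of_nonneg (by linarith [hdκ.1] : 0 ≤ 2 * d * κ ^ 2)]
      exact mul_le_mul (by linarith [hdκ.2]) he1 (abs_nonneg _) (by norm_num)
    rw [abs_mul]
    calc |e2| * |2 * d * κ ^ 2 * e1| ≤ 1 / 4 * (22 / 1000 * (1 / 4)) :=
          mul_le_mul he2 h5 (abs_nonneg _) (by norm_num)
      _ ≤ 1 / 100 := by norm_num
  have h6 : 978 / 1000 * x ^ 2 ≤ d * x ^ 2 := by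
    apply mul_le_mul_of_nonneg_right hd0; positivity
  have h7 := (abs_le.1 he1β).1
  have h8 := (abs_le.1 h3).1
  have ha1 : 978 / 1000 * x ^ 2 - x - 1 / 4 * (2095 / 10000 * x + 1048 / 10000) - 1 / 1000 ≤ a := by
    rw [ha']; linarith
  have hsq := sq_nonneg (x - 2387 / 1000)
  have ha2 : 303 / 100 ≤ a := by linarith
  refine ⟨ha2, ?_⟩
  have hb1 : |b| ≤ 1 / 4 * (2095 / 10000 * x + 1048 / 10000) + 1 / 100 := by
    rw [hb']
    exact (abs_add_le _ _).trans (add_le_add he2β h4)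
  linarith

lemma last_small {N c c' N5 N6 : ℝ} (hN : 17 ≤ N) (hc : 0 ≤ c) (hcN : c * N < 1 / 2)
    (s4' : N - c * (N ^ 2 + 1 / 4) ≤ N5) (c5 : 1 - 2 * c ^ 2 ≤ c')
    (s5 : c' * (N5 ^ 2 - 1 / 4) - N5 ≤ N6) : 30 ≤ N6 := by
  have hc1' : c ≤ 1 / 34 := by
    have := mul_le_mul_of_nonneg_left hN hc
    linarith
  have hNN := mul_le_mul_of_nonneg_right hcN.le (by linarith : 0 ≤ N)
  have h6 : 49 / 100 * N ≤ N5 := by linarith
  have h6' : 83 / 10 ≤ N5 := by linarith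
  have hcc := mul_le_mul hc1' hc1' hc (by norm_num)
  have h7 : 998 / 1000 ≤ c' := by linarith
  have h9 := mul_le_mul_of_nonneg_right h6' (by linarith : 0 ≤ N5)
  have h8 : 998 / 1000 * (N5 ^ 2 - 1 / 4) ≤ c' * (N5 ^ 2 - 1 / 4) := by
    apply mul_le_mul_of_nonneg_right h7
    linarith
  linarith

lemma last_mid {N c c' N5 N6 : ℝ} (hN : 17 ≤ N) (hc : 977 / 10000 < c) (hcN : c * N ≤ 3)
    (s4 : c * (N ^ 2 - 1 / 4) - N ≤ N5) (c5 : 1 - 2 * c ^ 2 ≤ c')
    (s5 : c' * (N5 ^ 2 - 1 / 4) - N5 ≤ N6) : 30 ≤ N6 := by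
  have hc0 : 0 ≤ c := by linarith
  have hc1' : c ≤ 3 / 17 := by
    have := mul_le_mul_of_nonneg_left hN hc0
    linarith
  have hNN := mul_le_mul_of_nonneg_right hN (by linarith : 0 ≤ N)
  have h6 : 11 ≤ N5 := by
    have h7 : 977 / 10000 * (N ^ 2 - 1 / 4) ≤ c * (N ^ 2 - 1 / 4) := by
      apply mul_le_mul_of_nonneg_right hc.le
      linarith
    linarith
  have hcc := mul_le_mul hc1' hc1' hc0 (by norm_num)
  have h7 : 93 / 100 ≤ c' := by linarith
  have h9 := mul_le_mul_of_nonneg_right h6 (by linarith : 0 ≤ N5)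
  have h8 : 93 / 100 * (N5 ^ 2 - 1 / 4) ≤ c' * (N5 ^ 2 - 1 / 4) := by
    apply mul_le_mul_of_nonneg_right h7
    linarith
  linarith

lemma last_big {N c N5 : ℝ} (hN : 17 ≤ N) (hc : c ≤ 1) (hcN : 3 < c * N)
    (s4 : c * (N ^ 2 - 1 / 4) - N ≤ N5) : 30 ≤ N5 := by
  have := mul_le_mul_of_nonneg_right hcN.le (by linarith : 0 ≤ N)
  linarith

/-- **(3)** the near half plane over `[1/4, 4/15]` -/
theorem Fam.near_half (hV : Fam e ρ A b V) (he : ‖e‖ ≤ 1 / 4) {k : ℕ} {t : ℝ} (h : Dm ρ k t)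
    (z : ℤ) (h1 : 1 / 4 ≤ b k + t - z) (h2 : b k + t - z ≤ 4 / 15) :
    2 * cs b k t * (V k t).re < 1 := by
  by_contra hcon
  push Not at hcon
  have hpi := Real.pi_pos
  have hpi2 := Real.pi_lt_d4
  set t0 : ℝ := b k + t - z with ht0
  set g : ℝ → ℝ := fun s => t - (t0 - s) with hg
  have hcs : ∀ s, cs b k (g s) = Real.cos (2 * Real.pi * s) := by
    intro s
    unfold cs
    have : 2 * Real.pi * (b k + g s) = 2 * Real.pi * s + z * (2 * Real.pi) := by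
      rw [hg, ht0]; ring
    rw [this, Real.cos_add_int_mul_two_pi]
  have hdist : ∀ s ∈ Icc (1 / 4 : ℝ) t0, |g s - t| ≤ 1 / 4 := by
    intro s hs
    have : g s - t = -(t0 - s) := by rw [hg]; ring
    rw [this, abs_neg, abs_of_nonneg (by linarith [hs.2])]
    linarith [hs.1]
  have hmem : ∀ s ∈ Icc (1 / 4 : ℝ) t0, g s ∈ Icc (-(ρ * 2 ^ k)) (ρ * 2 ^ k) := fun s hs =>
    abs_le.1 (h.near (hdist s hs)).mem
  have hcont : ContinuousOn (fun s => 2 * Real.cos (2 * Real.pi * s) * (V k (g s)).re)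
      (Icc (1 / 4 : ℝ) t0) := by
    apply ContinuousOn.mul
    · exact Continuous.continuousOn (by fun_prop)
    · exact Complex.continuous_re.comp_continuousOn
        ((hV.cont k).comp (Continuous.continuousOn (by rw [hg]; fun_prop)) hmem)
  have hivt := intermediate_value_Icc h1 hcont
  have hq : Real.cos (2 * Real.pi * (1 / 4)) = 0 := by
    have : 2 * Real.pi * (1 / 4) = Real.pi / 2 := by ring
    rw [this, Real.cos_pi_div_two]
  have hgt : g t0 = t := by rw [hg]; simp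
  obtain ⟨s, hs, hs1⟩ := hivt (show (1:ℝ) ∈ _ from ⟨by
    show 2 * Real.cos (2 * Real.pi * (1 / 4)) * (V k (g (1 / 4))).re ≤ 1
    rw [hq]; norm_num, by
    show 1 ≤ 2 * Real.cos (2 * Real.pi * t0) * (V k (g t0)).re
    rw [← hcs t0, hgt]; exact hcon⟩)
  have hs1' : 2 * Real.cos (2 * Real.pi * s) * (V k (g s)).re = 1 := hs1
  set τ := g s with hτ
  have hOk : Ok ρ k τ := h.near (hdist s hs)
  -- the cosine
  set κ : ℝ := -Real.cos (2 * Real.pi * s) with hκdef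
  have hκs : κ = Real.sin (2 * Real.pi * (s - 1 / 4)) := by
    rw [hκdef]
    have : 2 * Real.pi * s = 2 * Real.pi * (s - 1 / 4) + Real.pi / 2 := by ring
    rw [this, Real.cos_add_pi_div_two, neg_neg]
  have hsx : 0 ≤ 2 * Real.pi * (s - 1 / 4) := by
    have := hs.1
    exact mul_nonneg (by positivity) (by linarith)
  have hsx2 : 2 * Real.pi * (s - 1 / 4) ≤ 10473 / 100000 := by
    have h3 : s - 1 / 4 ≤ 1 / 60 := by linarith [hs.2]
    have h4 : 2 * Real.pi * (s - 1 / 4) ≤ 2 * Real.pi * (1 / 60) := by gcongr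
    linarith
  have hκ0 : 0 ≤ κ := by
    rw [hκs]; exact Real.sin_nonneg_of_nonneg_of_le_pi hsx (by linarith [Real.pi_gt_three])
  have hκ1 : κ ≤ 10473 / 100000 := by
    rw [hκs]; exact (Real.sin_le hsx).trans hsx2
  have hcosκ : Real.cos (2 * Real.pi * s) = -κ := by rw [hκdef, neg_neg]
  have hκpos : 0 < κ := by
    rcases hκ0.lt_or_eq with h | h
    · exact h
    · rw [hcosκ, ← h] at hs1'; norm_num at hs1'
  have hc0 : cs b k τ = -κ := by rw [hτ, hcs, hcosκ]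
  have d1 := hOk.succ
  have d2 := d1.succ
  have d3 := d2.succ
  have d4 := d3.succ
  have r0 := hV.recur k τ hOk.mem
  have r1 := hV.recur (k + 1) (2 * τ) d1.ok.mem
  have r2 := hV.recur (k + 1 + 1) (2 * (2 * τ)) d2.ok.mem
  have r3 := hV.recur (k + 1 + 1 + 1) (2 * (2 * (2 * τ))) d3.ok.mem
  rw [show Real.cos (2 * Real.pi * (b k + τ)) = cs b k τ from rfl] at r0
  rw [show Real.cos (2 * Real.pi * (b (k + 1) + 2 * τ)) = cs b (k + 1) (2 * τ) from rfl] at r1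
  rw [show Real.cos (2 * Real.pi * (b (k + 1 + 1) + 2 * (2 * τ))) =
    cs b (k + 1 + 1) (2 * (2 * τ)) from rfl] at r2
  rw [show Real.cos (2 * Real.pi * (b (k + 1 + 1 + 1) + 2 * (2 * (2 * τ)))) =
    cs b (k + 1 + 1 + 1) (2 * (2 * (2 * τ))) from rfl] at r3
  set D : ℝ := 1 - 2 * κ ^ 2 with hD
  have hc1 : cs b (k + 1) (2 * τ) = -D := by rw [hV.cs_succ, hc0, hD]; ring
  have hc2 : cs b (k + 1 + 1) (2 * (2 * τ)) = 2 * D ^ 2 - 1 := by rw [hV.cs_succ, hc1]; ring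
  set D2 : ℝ := 2 * D ^ 2 - 1 with hD2
  have hc3 : cs b (k + 1 + 1 + 1) (2 * (2 * (2 * τ))) = 2 * D2 ^ 2 - 1 := by
    rw [hV.cs_succ, hc2]
  set D3 : ℝ := 2 * D2 ^ 2 - 1 with hD3
  rw [hc0] at r0
  rw [hc1] at r1
  rw [hc2] at r2
  rw [hc3] at r3
  have hκsq : κ * κ ≤ 10473 / 100000 * (10473 / 100000) := mul_le_mul hκ1 hκ1 hκ0 (by norm_num)
  have bD : 978 / 1000 ≤ D := by rw [hD]; linarith
  have bD1 : D ≤ 1 := by rw [hD]; linarith [sq_nonneg κ]
  have hDD := mul_le_mul bD bD (by norm_num) (by linarith)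
  have hDD1 := mul_le_mul bD1 bD1 (by linarith) zero_le_one
  have bD2 : 912 / 1000 ≤ D2 := by rw [hD2]; linarith
  have bD21 : D2 ≤ 1 := by rw [hD2]; linarith
  have hDD2 := mul_le_mul bD2 bD2 (by norm_num) (by linarith)
  have hDD21 := mul_le_mul bD21 bD21 (by linarith) zero_le_one
  have bD3 : 663 / 1000 ≤ D3 := by rw [hD3]; linarith
  have bD31 : D3 ≤ 1 := by rw [hD3]; linarith
  set Z0 := V k τ with hZ0
  set Z1 := V (k + 1) (2 * τ) with hZ1
  set Z2 := V (k + 1 + 1) (2 * (2 * τ)) with hZ2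
  set Z3 := V (k + 1 + 1 + 1) (2 * (2 * (2 * τ))) with hZ3
  set Z4 := V (k + 1 + 1 + 1 + 1) (2 * (2 * (2 * (2 * τ)))) with hZ4
  have he1 : |e.re| ≤ 1 / 4 := (Complex.abs_re_le_norm e).trans he
  have he2 : |e.im| ≤ 1 / 4 := (Complex.abs_im_le_norm e).trans he
  have hee : e.re ^ 2 + e.im ^ 2 ≤ 1 / 16 := by
    have h5 := Complex.sq_norm e
    rw [Complex.normSq_apply] at h5
    have h6 := mul_le_mul he he (norm_nonneg e) (by norm_num)
    linarith
  have hp : -(2 * κ * Z0.re) = 1 := by rw [hcosκ] at hs1'; linarith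
  have hre1 : Z1.re = Z0.re - κ * (e.re - (Z0.re ^ 2 - Z0.im ^ 2)) := by
    rw [r0]
    simp only [Complex.add_re, Complex.mul_re, Complex.ofReal_re, Complex.ofReal_im, Complex.sub_re,
      Complex.sub_im, pow_two]
    ring
  have him1 : Z1.im = Z0.im - κ * (e.im - 2 * Z0.re * Z0.im) := by
    rw [r0]
    simp only [Complex.add_im, Complex.mul_im, Complex.mul_re, Complex.ofReal_re, Complex.ofReal_im,
      Complex.sub_re, Complex.sub_im, pow_two]
    ring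
  have hre2 : Z2.re = Z1.re - D * (e.re - (Z1.re ^ 2 - Z1.im ^ 2)) := by
    rw [r1]
    simp only [Complex.add_re, Complex.mul_re, Complex.ofReal_re, Complex.ofReal_im, Complex.sub_re,
      Complex.sub_im, pow_two]
    ring
  have him2 : Z2.im = Z1.im - D * (e.im - 2 * Z1.re * Z1.im) := by
    rw [r1]
    simp only [Complex.add_im, Complex.mul_im, Complex.mul_re, Complex.ofReal_re, Complex.ofReal_im,
      Complex.sub_re, Complex.sub_im, pow_two]
    ring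
  obtain ⟨ha, hb⟩ := crit_two hκpos hκ1 hp he1 he2 hee hre1 him1 hD hre2 him2
  have hre3 : Z3.re = Z2.re + D2 * (e.re - (Z2.re ^ 2 - Z2.im ^ 2)) := by
    rw [r2]
    simp only [Complex.add_re, Complex.mul_re, Complex.ofReal_re, Complex.ofReal_im, Complex.sub_re,
      Complex.sub_im, pow_two]
    ring
  have hneg3 : Z3.re ≤ 0 := by
    have h5 : Z2.im ^ 2 ≤ Z2.re ^ 2 / 4 := by
      rw [← sq_abs Z2.im]
      have := mul_le_mul hb hb (abs_nonneg Z2.im) (by linarith)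
      linarith
    have h6 := (abs_le.1 he1).2
    rw [hre3]
    have h7 : D2 * e.re ≤ 1 / 4 := by
      have := mul_le_mul_of_nonneg_left h6 (by linarith : 0 ≤ D2)
      linarith
    have h8 : D2 * (3 / 4 * Z2.re ^ 2) ≤ D2 * (Z2.re ^ 2 - Z2.im ^ 2) := by
      apply mul_le_mul_of_nonneg_left _ (by linarith)
      linarith
    have h9 : 912 / 1000 * (3 / 4 * Z2.re ^ 2) ≤ D2 * (3 / 4 * Z2.re ^ 2) := by
      apply mul_le_mul_of_nonneg_right bD2; positivity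
    have h10 := mul_le_mul_of_nonneg_right ha (by linarith : 0 ≤ Z2.re)
    linarith
  -- norms
  have n2 : 303 / 100 ≤ ‖Z2‖ := ha.trans (Complex.re_le_norm Z2)
  have n3 : 51 / 10 ≤ ‖Z3‖ := by
    have h5 := (step_lower he D2 Z2).1
    rw [← r2, abs_of_pos (by linarith : 0 < D2)] at h5
    have h7 := mul_le_mul_of_nonneg_right n2 (norm_nonneg Z2)
    have h6 : 912 / 1000 * (‖Z2‖ ^ 2 - 1 / 4) ≤ D2 * (‖Z2‖ ^ 2 - 1 / 4) := by
      apply mul_le_mul_of_nonneg_right bD2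
      linarith
    linarith
  have n4 : 17 ≤ ‖Z4‖ := by
    have h5 : Z4 = Z3 * (1 - (D3 : ℂ) * Z3) + (D3 : ℂ) * e := by rw [r3]; ring
    have h6 : ‖(D3 : ℂ) * Z3‖ ≤ ‖1 - (D3 : ℂ) * Z3‖ := by
      apply norm_le_one_sub
      rw [Complex.re_ofReal_mul]
      exact mul_nonpos_of_nonneg_of_nonpos (by linarith) hneg3
    have h7 : ‖(D3 : ℂ)‖ = D3 := by
      rw [Complex.norm_real, Real.norm_eq_abs, abs_of_pos (by linarith)]
    rw [norm_mul, h7] at h6
    have h8 : ‖Z3 * (1 - (D3 : ℂ) * Z3)‖ - ‖(D3 : ℂ) * e‖ ≤ ‖Z4‖ := by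
      rw [h5]
      have := norm_sub_norm_le (Z3 * (1 - (D3 : ℂ) * Z3)) (-((D3 : ℂ) * e))
      rwa [norm_neg, sub_neg_eq_add] at this
    rw [norm_mul, norm_mul, h7] at h8
    have hD30 : 0 ≤ D3 := by linarith
    have h9 : D3 * ‖e‖ ≤ D3 * (1 / 4) := mul_le_mul_of_nonneg_left he hD30
    have h10 : ‖Z3‖ * (D3 * ‖Z3‖) ≤ ‖Z3‖ * ‖1 - (D3 : ℂ) * Z3‖ := by gcongr
    have h12 := mul_le_mul n3 n3 (by norm_num) (norm_nonneg Z3)
    have h11 := mul_le_mul_of_nonneg_left h12 hD30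
    linarith
  -- the last case distinction
  have b4 := hV.bd he d4
  have C4 := abs_cs_le (b := b) (k + 1 + 1 + 1 + 1) (2 * (2 * (2 * (2 * τ))))
  have C40 : 0 ≤ |cs b (k + 1 + 1 + 1 + 1) (2 * (2 * (2 * (2 * τ))))| := abs_nonneg _
  obtain ⟨s4, s4'⟩ := hV.lower he d4.ok
  obtain ⟨s5, -⟩ := hV.lower he d4.succ.ok
  obtain ⟨c5, -⟩ := hV.abs_cs_succ (k + 1 + 1 + 1 + 1) (2 * (2 * (2 * (2 * τ))))
  have b5 := hV.bd he d4.succ
  have b6 := hV.bd he d4.succ.succ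
  rw [← hZ4] at b4 s4 s4'
  set c := |cs b (k + 1 + 1 + 1 + 1) (2 * (2 * (2 * (2 * τ))))| with hc
  set c' := |cs b (k + 1 + 1 + 1 + 1 + 1) (2 * (2 * (2 * (2 * (2 * τ)))))| with hc'
  set N := ‖Z4‖ with hN
  set N5 := ‖V (k + 1 + 1 + 1 + 1 + 1) (2 * (2 * (2 * (2 * (2 * τ)))))‖ with hN5
  by_cases hcase : c ≤ 977 / 10000
  · have h5 := hV.near_disc he d4 hcase
    rw [← hc, ← hZ4, ← hN] at h5
    exact absurd (last_small n4 C40 h5 s4' c5 s5) (not_le.2 b6)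
  · push Not at hcase
    by_cases h3 : c * N ≤ 3
    · exact absurd (last_mid n4 hcase h3 s4 c5 s5) (not_le.2 b6)
    · push Not at h3
      exact absurd (last_big n4 C4 h3 s4) (not_le.2 b5)

end Pool.Agent.W_4481e3_h1
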